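import Mathlib

namespace Pool.Agent.Results.MP_7a9eeb_co.Twelve

open SimpleGraph Finset

/-- Every labeling can be cleared: toggling `u` exactly `t u` times adds `t u` to each vertex of
the closed neighbourhood of `u`. -/
def AlwaysWinnable (l : ℕ) {n : ℕ} (G : SimpleGraph (Fin n)) [DecidableRel G.Adj] : Prop :=
  ∀ x : Fin n → ZMod l, ∃ t : Fin n → ℕ, ∀ v,
    x v + ∑ u ∈ insert v (G.neighborFinset v), (t u : ZMod l) = 0

def E : List (Fin 12 × Fin 12) := [(0, 1), (2, 3), (2, 4), (2, 5), (3, 7), (3, 11), (4, 5), (6, 7), (8, 9), (10, 11)]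

def G : SimpleGraph (Fin 12) where
  Adj a b := a ≠ b ∧ (a, b) ∉ E ∧ (b, a) ∉ E
  symm := ⟨fun _ _ h => ⟨h.1.symm, h.2.2, h.2.1⟩⟩
  loopless := ⟨fun _ h => h.1 rfl⟩

instance : DecidableRel G.Adj := fun a b =>
  inferInstanceAs (Decidable (a ≠ b ∧ (a, b) ∉ E ∧ (b, a) ∉ E))

def BL : List (List ℕ) :=
  [[1777, 1776, 533, 1599, 1244, 1244, 178, 1777, 1777, 1777, 178, 1777],
   [1776, 1777, 533, 1599, 1244, 1244, 178, 1777, 1777, 1777, 178, 1777],
   [533, 533, 1777, 710, 1066, 1066, 2133, 533, 533, 533, 2133, 533],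
   [1599, 1599, 710, 2131, 889, 889, 1778, 1599, 1599, 1599, 1778, 1599],
   [1244, 1244, 1066, 889, 178, 177, 355, 1244, 1244, 1244, 355, 1244],
   [1244, 1244, 1066, 889, 177, 178, 355, 1244, 1244, 1244, 355, 1244],
   [178, 178, 2133, 1778, 355, 355, 710, 177, 178, 178, 710, 178],
   [1777, 1777, 533, 1599, 1244, 1244, 177, 1777, 1777, 1777, 178, 1777],
   [1777, 1777, 533, 1599, 1244, 1244, 178, 1777, 1777, 1776, 178, 1777],
   [1777, 1777, 533, 1599, 1244, 1244, 178, 1777, 1776, 1777, 178, 1777],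
   [178, 178, 2133, 1778, 355, 355, 710, 178, 178, 178, 710, 177],
   [1777, 1777, 533, 1599, 1244, 1244, 178, 1777, 1777, 1777, 177, 1777]]

def B (i j : Fin 12) : ℕ := (BL.getD i.val []).getD j.val 0

lemma inv : ∀ v w : Fin 12, (∑ u ∈ insert v (G.neighborFinset v), B u w) % 2310 =
    if v = w then 1 else 0 := by decide +kernel

lemma win : AlwaysWinnable 2310 G := by
  intro x
  refine ⟨fun u => ∑ w, B u w * (-x w).val, fun v => ?_⟩
  have h : ∀ w, ((∑ u ∈ insert v (G.neighborFinset v), B u w : ℕ) : ZMod 2310) =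
      if v = w then 1 else 0 := by
    intro w
    rw [← ZMod.natCast_mod, inv]
    split_ifs <;> simp
  push_cast at h ⊢
  rw [sum_comm]
  simp only [← sum_mul, h, ZMod.natCast_val, ZMod.cast_id', id]
  simp

theorem result :
    ∃ (n l k : ℕ) (H : SimpleGraph (Fin n)) (_ : DecidableRel H.Adj), 2 ≤ n ∧ 2 ≤ l ∧
      Even n ∧ Even l ∧ IsLeast {j : ℕ | Int.gcd ((n : ℤ) - 2 * j - 1) l = 1} k ∧ 4 ≤ k ∧
      AlwaysWinnable l H ∧ n.choose 2 - (n / 2 + k) < H.edgeFinset.card := by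
  refine ⟨12, 2310, 5, G, inferInstance, by norm_num, by norm_num, by decide, by decide,
    ⟨by decide, ?_⟩, by norm_num, win, by decide +kernel⟩
  intro j hj
  by_contra h
  have : j < 5 := by omega
  interval_cases j <;> exact absurd hj (by decide)

end Pool.Agent.Results.MP_7a9eeb_co.Twelve
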